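import Pool.Agent.W819.NC.Stm
import Pool.Agent.W38.EN.Cir
import Pool.Agent.W320.EN.Slab

/-!
NC-G2: joining two chains at a circuit of minimal cost; locality of the costs.
-/

set_option autoImplicit false

namespace Pool.Agent.W405.NC
open H974 Finset Pool.Agent.W819.EN Pool.Agent.W819.NC Pool.Agent.W320.EN

/-- a circuit can always be produced by opening enough edges -/
theorem cir_ex (F : Finset Edg) (v : Vtx) (b : ℕ) : ∃ k : ℕ, Cir v b k F := by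
  have hb : (0 : ℤ) ≤ b := Int.natCast_nonneg b
  obtain ⟨k1, e1⟩ : ∃ k, Opn k (LRE (v.1 - 2 * b) (v.1 + 2 * b) (v.2 + b) (v.2 + 2 * b))
      (LRc (v.1 - 2 * b) (v.1 + 2 * b) (v.2 + b) (v.2 + 2 * b)) F :=
    ⟨_, _, Finset.Subset.refl _, le_rfl, full_LR (by omega) (by omega) F⟩
  obtain ⟨k2, e2⟩ : ∃ k, Opn k (LRE (v.1 - 2 * b) (v.1 + 2 * b) (v.2 - 2 * b) (v.2 - b))
      (LRc (v.1 - 2 * b) (v.1 + 2 * b) (v.2 - 2 * b) (v.2 - b)) F :=
    ⟨_, _, Finset.Subset.refl _, le_rfl, full_LR (by omega) (by omega) F⟩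
  obtain ⟨k3, e3⟩ : ∃ k, Opn k (TBE (v.1 + b) (v.1 + 2 * b) (v.2 - 2 * b) (v.2 + 2 * b))
      (TBc (v.1 + b) (v.1 + 2 * b) (v.2 - 2 * b) (v.2 + 2 * b)) F :=
    ⟨_, _, Finset.Subset.refl _, le_rfl, full_TB (by omega) (by omega) F⟩
  obtain ⟨k4, e4⟩ : ∃ k, Opn k (TBE (v.1 - 2 * b) (v.1 - b) (v.2 - 2 * b) (v.2 + 2 * b))
      (TBc (v.1 - 2 * b) (v.1 - b) (v.2 - 2 * b) (v.2 + 2 * b)) F :=
    ⟨_, _, Finset.Subset.refl _, le_rfl, full_TB (by omega) (by omega) F⟩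
  exact ⟨k1 + k2 + k3 + k4, ⟨opn_mono (by omega) e1, opn_mono (by omega) e2⟩,
    opn_mono (by omega) e3, opn_mono (by omega) e4⟩

/-- the join field of `SysG` -/
theorem t_JOIN (F : Finset Edg) (v : Vtx) (b r R : ℕ) (hb : 1 ≤ b) (hr : r ≤ b)
    (hR : 2 * b ≤ R) : NA F v r R ≤ NA F v r (2 * b) + NA F v b R + Wc F v b := by
  have h : Cir v b (sInf {k | Cir v b k F}) F :=
    Nat.sInf_mem (s := {k | Cir v b k F}) (cir_ex F v b)
  exact Pool.Agent.W38.EN.t_CIR0 F v b _ r R hb hr hR h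

theorem sub_LR1 (v : Vtx) (b : ℕ) :
    LRE (v.1 - 2 * b) (v.1 + 2 * b) (v.2 + b) (v.2 + 2 * b) ⊆ an v b (2 * b) := by
  rintro ⟨x, y, _ | _⟩ h
  · simp only [an, bx, Finset.mem_sdiff, mem_LRE_false, mem_RE_false] at h ⊢
    push_cast
    omega
  · simp only [an, bx, Finset.mem_sdiff, mem_LRE_true, mem_RE_true] at h ⊢
    push_cast
    omega

theorem sub_LR2 (v : Vtx) (b : ℕ) :
    LRE (v.1 - 2 * b) (v.1 + 2 * b) (v.2 - 2 * b) (v.2 - b) ⊆ an v b (2 * b) := by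
  rintro ⟨x, y, _ | _⟩ h
  · simp only [an, bx, Finset.mem_sdiff, mem_LRE_false, mem_RE_false] at h ⊢
    push_cast
    omega
  · simp only [an, bx, Finset.mem_sdiff, mem_LRE_true, mem_RE_true] at h ⊢
    push_cast
    omega

theorem sub_TB1 (v : Vtx) (b : ℕ) :
    TBE (v.1 + b) (v.1 + 2 * b) (v.2 - 2 * b) (v.2 + 2 * b) ⊆ an v b (2 * b) := by
  rintro ⟨x, y, _ | _⟩ h
  · simp only [an, bx, Finset.mem_sdiff, mem_TBE_false, mem_RE_false] at h ⊢
    push_cast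
    omega
  · simp only [an, bx, Finset.mem_sdiff, mem_TBE_true, mem_RE_true] at h ⊢
    push_cast
    omega

theorem sub_TB2 (v : Vtx) (b : ℕ) :
    TBE (v.1 - 2 * b) (v.1 - b) (v.2 - 2 * b) (v.2 + 2 * b) ⊆ an v b (2 * b) := by
  rintro ⟨x, y, _ | _⟩ h
  · simp only [an, bx, Finset.mem_sdiff, mem_TBE_false, mem_RE_false] at h ⊢
    push_cast
    omega
  · simp only [an, bx, Finset.mem_sdiff, mem_TBE_true, mem_RE_true] at h ⊢
    push_cast
    omega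

/-- the wloc field of `SysG` -/
theorem t_WLOC (F : Finset Edg) (v : Vtx) (b : ℕ) (_hb : 1 ≤ b) :
    Wc F v b = Wc (F ∩ an v b (2 * b)) v b := by
  have h : ∀ k : ℕ, Cir v b k F ↔ Cir v b k (F ∩ an v b (2 * b)) := fun k =>
    and_congr (and_congr (opn_loc (sub_LR1 v b)) (opn_loc (sub_LR2 v b)))
      (and_congr (opn_locT (sub_TB1 v b)) (opn_locT (sub_TB2 v b)))
  simp only [Wc, h]

/-- the kloc field of `SysG` -/
theorem t_KLOC (F : Finset Edg) (a b c d : ℤ) :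
    Kc F a b c d = Kc (F ∩ LRE a b c d) a b c d := by
  have h : ∀ k : ℕ, Opn k (LRE a b c d) (LRc a b c d) F ↔
      Opn k (LRE a b c d) (LRc a b c d) (F ∩ LRE a b c d) := fun k =>
    opn_loc (Finset.Subset.refl _)
  exact congrArg sInf (Set.ext h)

end Pool.Agent.W405.NC
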